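import Mathlib

set_option autoImplicit false

/-!
# Every nonzero separable Banach space has a cyclic operator whose range lies in a closed hyperplane
-/

open Filter Topology ContinuousLinearMap

namespace Pool.Agent.Helper324_CC

section
variable {𝕜 : Type*} [RCLike 𝕜] {Y : Type*} [NormedAddCommGroup Y] [NormedSpace 𝕜 Y]

/-- cyclic vectors -/
def Cyc (S : Y →L[𝕜] Y) (x : Y) : Prop :=
  Dense (Submodule.span 𝕜 (Set.range fun n : ℕ => (S ^ n) x) : Set Y)

lemma exists_sep (V : Submodule 𝕜 Y) [FiniteDimensional 𝕜 V] (x : Y) (hx : x ∉ V) :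
    ∃ f : Y →L[𝕜] 𝕜, (∀ v ∈ V, f v = 0) ∧ f x = 1 := by
  obtain ⟨P, hP⟩ := Submodule.ClosedComplemented.of_finiteDimensional V
  have hne : x - (P x : Y) ≠ 0 := by
    intro h
    apply hx
    rw [sub_eq_zero.1 h]
    exact (P x).2
  obtain ⟨g, hg⟩ := SeparatingDual.exists_eq_one (R := 𝕜) hne
  refine ⟨g ∘L (ContinuousLinearMap.id 𝕜 Y - V.subtypeL ∘L P), fun v hv => ?_, ?_⟩
  · have := hP ⟨v, hv⟩
    simp [this]
  · simpa using hg

open Classical in
/-- the first member of the sequence outside of a subspace -/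
noncomputable def pick (u : ℕ → Y) (W : Submodule 𝕜 Y) : Y :=
  if h : ∃ k, u k ∉ W then u (Nat.find h) else 0

variable (𝕜) in
/-- increasing sequence of finite dimensional subspaces -/
noncomputable def VV (u : ℕ → Y) : ℕ → Submodule 𝕜 Y
  | 0 => ⊥
  | n + 1 => VV u n ⊔ Submodule.span 𝕜 {pick u (VV u n)}

lemma VV_zero (u : ℕ → Y) : VV 𝕜 u 0 = ⊥ := rfl

lemma VV_succ (u : ℕ → Y) (n : ℕ) :
    VV 𝕜 u (n + 1) = VV 𝕜 u n ⊔ Submodule.span 𝕜 {pick u (VV 𝕜 u n)} := rfl

lemma VV_fin (u : ℕ → Y) (n : ℕ) : FiniteDimensional 𝕜 (VV 𝕜 u n) := by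
  induction n with
  | zero => rw [VV_zero]; infer_instance
  | succ n ih => rw [VV_succ]; infer_instance

lemma VV_mono (u : ℕ → Y) : Monotone (VV 𝕜 u) := monotone_nat_of_le_succ fun n => by
  rw [VV_succ]
  exact le_sup_left

lemma pick_mem (u : ℕ → Y) (n : ℕ) : pick u (VV 𝕜 u n) ∈ VV 𝕜 u (n + 1) := by
  rw [VV_succ]
  exact Submodule.mem_sup_right (Submodule.mem_span_singleton_self _)

lemma mem_VV (u : ℕ → Y) (n : ℕ) : ∀ i < n, u i ∈ VV 𝕜 u n := by
  classical
  induction n with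
  | zero => intro i hi; omega
  | succ n ih =>
    intro i hi
    rcases Nat.lt_succ_iff_lt_or_eq.1 hi with h | h
    · exact VV_mono u (Nat.le_succ n) (ih i h)
    · subst h
      by_cases hu : u i ∈ VV 𝕜 u i
      · exact VV_mono u (Nat.le_succ i) hu
      · have hex : ∃ k, u k ∉ VV 𝕜 u i := ⟨i, hu⟩
        have h1 : Nat.find hex = i := by
          refine le_antisymm (Nat.find_min' hex hu) ?_
          by_contra hlt
          exact Nat.find_spec hex (ih _ (not_le.1 hlt))
        have h2 : pick u (VV 𝕜 u i) = u i := by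
          unfold pick
          rw [dif_pos hex]
          convert congrArg u h1
        rw [← h2]
        exact pick_mem u i

lemma pick_zero (u : ℕ → Y) (n : ℕ) (h : pick u (VV 𝕜 u n) ∈ VV 𝕜 u n) :
    pick u (VV 𝕜 u (n + 1)) = 0 := by
  classical
  have h1 : ¬ ∃ k, u k ∉ VV 𝕜 u n := by
    intro hex
    unfold pick at h
    rw [dif_pos hex] at h
    exact Nat.find_spec hex h
  have h2 : ¬ ∃ k, u k ∉ VV 𝕜 u (n + 1) := by
    rintro ⟨k, hk⟩
    exact h1 ⟨k, fun h => hk (VV_mono u (Nat.le_succ n) h)⟩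
  unfold pick
  rw [dif_neg h2]

end

/-- Every separable Banach space has a cyclic operator. -/
theorem exists_cyclic (𝕜 : Type*) [RCLike 𝕜] (Y : Type*) [NormedAddCommGroup Y] [NormedSpace 𝕜 Y]
    [CompleteSpace Y] [TopologicalSpace.SeparableSpace Y] : ∃ (A : Y →L[𝕜] Y) (y : Y), Cyc A y := by
  classical
  obtain ⟨u, hud⟩ := TopologicalSpace.exists_dense_seq Y
  obtain ⟨x, hx⟩ : ∃ x : ℕ → Y, ∀ n, x n = pick u (VV 𝕜 u n) := ⟨_, fun _ => rfl⟩
  have hx1 : ∀ m n, m < n → x m ∈ VV 𝕜 u n := fun m n h => by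
    rw [hx]
    exact VV_mono u (Nat.succ_le_of_lt h) (pick_mem u m)
  have hf : ∀ n, ∃ f : Y →L[𝕜] 𝕜, (∀ v ∈ VV 𝕜 u n, f v = 0) ∧ (x n ∉ VV 𝕜 u n → f (x n) = 1) := by
    intro n
    haveI := VV_fin (𝕜 := 𝕜) u n
    by_cases h : x n ∈ VV 𝕜 u n
    · exact ⟨0, fun _ _ => rfl, fun h' => absurd h h'⟩
    · obtain ⟨f, hf1, hf2⟩ := exists_sep (VV 𝕜 u n) (x n) h
      exact ⟨f, hf1, fun _ => hf2⟩
  choose f hf1 hf2 using hf
  obtain ⟨w, hw⟩ : ∃ w : ℕ → ℝ, ∀ n, w n = (1 / 2) ^ n / (‖f n‖ * ‖x (n + 1)‖ + 1) :=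
    ⟨_, fun _ => rfl⟩
  have hw0 : ∀ n, 0 < w n := fun n => by rw [hw]; positivity
  obtain ⟨B, hBdef⟩ : ∃ B : ℕ → (Y →L[𝕜] Y), ∀ n, B n = ((w n : ℝ) : 𝕜) • (f n).smulRight (x (n + 1)) :=
    ⟨_, fun _ => rfl⟩
  have hB : ∀ n, ‖B n‖ ≤ (1 / 2) ^ n := by
    intro n
    rw [hBdef]
    rw [norm_smul, norm_smulRight_apply, RCLike.norm_ofReal, abs_of_pos (hw0 n)]
    rw [hw]
    rw [div_mul_eq_mul_div, div_le_iff₀ (by positivity)]
    refine mul_le_mul_of_nonneg_left ?_ (by positivity)
    linarith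
  have hsum : Summable B := Summable.of_norm_bounded
    (summable_geometric_of_lt_one (by norm_num) (by norm_num)) hB
  obtain ⟨A, hAs⟩ : ∃ A : Y →L[𝕜] Y, HasSum B A := ⟨_, hsum.hasSum⟩
  have hA : ∀ m, A (x m) = ∑ n ∈ Finset.range (m + 1), (((w n : ℝ) : 𝕜) * f n (x m)) • x (n + 1) := by
    intro m
    have h1 : HasSum (fun n => B n (x m)) (A (x m)) :=
      (ContinuousLinearMap.apply 𝕜 Y (x m)).hasSum hAs
    have h2 : HasSum (fun n => B n (x m)) (∑ n ∈ Finset.range (m + 1), B n (x m)) := by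
      refine hasSum_sum_of_ne_finset_zero fun n hn => ?_
      have hn' : m < n := by
        have := Finset.mem_range.not.1 hn
        omega
      rw [hBdef, smul_apply, smulRight_apply]
      rw [hf1 n (x m) (hx1 m n hn'), zero_smul, smul_zero]
    rw [h1.unique h2]
    refine Finset.sum_congr rfl fun n _ => ?_
    rw [hBdef, smul_apply, smulRight_apply, smul_smul]
  refine ⟨A, x 0, ?_⟩
  set W := Submodule.span 𝕜 (Set.range fun n : ℕ => (A ^ n) (x 0)) with hW
  have hinv : ∀ y ∈ W, A y ∈ W := by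
    intro y hy
    refine Submodule.span_induction ?_ ?_ ?_ ?_ hy
    · rintro _ ⟨n, rfl⟩
      refine Submodule.subset_span ⟨n + 1, ?_⟩
      simp only [pow_succ', mul_apply_eq_comp]
    · rw [map_zero]; exact Submodule.zero_mem _
    · intro a b _ _ ha hb
      rw [map_add]; exact Submodule.add_mem _ ha hb
    · intro c a _ ha
      rw [map_smul]; exact Submodule.smul_mem _ _ ha
  have hmem : ∀ m, ∀ i ≤ m, x i ∈ W := by
    intro m
    induction m with
    | zero =>
      intro i hi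
      have : i = 0 := by omega
      subst this
      exact Submodule.subset_span ⟨0, by simp⟩
    | succ m ih =>
      intro i hi
      rcases Nat.le_succ_iff.1 hi with h | h
      · exact ih i h
      · subst h
        by_cases hm : x m ∈ VV 𝕜 u m
        · have : x (m + 1) = 0 := by
            rw [hx] at hm ⊢
            exact pick_zero u m hm
          rw [this]
          exact W.zero_mem
        · have h1 := hinv _ (ih m le_rfl)
          rw [hA m, Finset.sum_range_succ, hf2 m hm, mul_one] at h1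
          have h2 : ∑ n ∈ Finset.range m, (((w n : ℝ) : 𝕜) * f n (x m)) • x (n + 1) ∈ W :=
            Submodule.sum_mem _ fun n hn =>
              Submodule.smul_mem _ _ (ih (n + 1) (by have := Finset.mem_range.1 hn; omega))
          have h3 := (Submodule.add_mem_iff_right W h2).1 h1
          have h4 : ((w m : ℝ) : 𝕜) ≠ 0 := by exact_mod_cast (hw0 m).ne'
          exact (Submodule.smul_mem_iff W h4).1 h3
  have hVW : ∀ n, VV 𝕜 u n ≤ W := by
    intro n
    induction n with
    | zero => rw [VV_zero]; exact bot_le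
    | succ n ih =>
      rw [VV_succ]
      refine sup_le ih ?_
      rw [Submodule.span_le]
      rintro _ rfl
      rw [← hx]
      exact hmem n n le_rfl
  have hu : ∀ k, u k ∈ W := fun k => hVW (k + 1) (mem_VV u (k + 1) k (Nat.lt_succ_self k))
  refine Dense.mono ?_ hud
  rintro _ ⟨k, rfl⟩
  exact hu k

/-- Every nonzero separable Banach space has a cyclic contraction `S` and a nonzero functional `g`
with `g ∘ S = 0`. -/
theorem exists_cyclic_ker (𝕜 : Type*) [RCLike 𝕜] (X : Type*) [NormedAddCommGroup X]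
    [NormedSpace 𝕜 X] [CompleteSpace X] [TopologicalSpace.SeparableSpace X] [Nontrivial X] :
    ∃ (S : X →L[𝕜] X) (x : X) (g : X →L[𝕜] 𝕜), ‖S‖ ≤ 1 ∧ g ≠ 0 ∧ (∀ y, g (S y) = 0) ∧ Cyc S x := by
  obtain ⟨e, he⟩ := exists_ne (0 : X)
  obtain ⟨g, hg⟩ := SeparatingDual.exists_eq_one (R := 𝕜) he
  -- the hyperplane
  set K : Submodule 𝕜 X := LinearMap.ker (g : X →ₗ[𝕜] 𝕜) with hK
  have hKc : IsClosed (K : Set X) := g.isClosed_ker
  haveI : CompleteSpace K := hKc.completeSpace_coe
  haveI : TopologicalSpace.SeparableSpace K := by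
    haveI : SecondCountableTopology X := UniformSpace.secondCountable_of_separable X
    infer_instance
  obtain ⟨A, y, hAy⟩ := exists_cyclic 𝕜 K
  -- projection onto `K`
  have hmem : ∀ z : X, (ContinuousLinearMap.id 𝕜 X - g.smulRight e) z ∈ K := by
    intro z
    rw [hK, LinearMap.mem_ker]
    simp [hg]
  set P : X →L[𝕜] K := (ContinuousLinearMap.id 𝕜 X - g.smulRight e).codRestrict K hmem with hP
  have hPK : ∀ k : K, P (k : X) = k := by
    intro k
    have hk : g (k : X) = 0 := k.2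
    apply Subtype.ext
    simp [hP, hk]
  have hPe : P e = 0 := by
    apply Subtype.ext
    simp [hP, hg]
  set S0 : X →L[𝕜] X := K.subtypeL ∘L (A ∘L P + g.smulRight y) with hS0
  have hS0e : S0 e = (y : X) := by simp [hS0, hPe, hg]
  have hS0K : ∀ k : K, S0 (k : X) = (A k : X) := by
    intro k
    have hk : g (k : X) = 0 := k.2
    simp [hS0, hPK, hk]
  have hgS0 : ∀ z, g (S0 z) = 0 := by
    intro z
    exact ((A ∘L P + g.smulRight y) z).2
  have hpow : ∀ n : ℕ, (S0 ^ (n + 1)) e = ((A ^ n) y : K) := by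
    intro n
    induction n with
    | zero => simpa using hS0e
    | succ n ih =>
      rw [pow_succ', mul_apply_eq_comp, ih, hS0K, pow_succ', mul_apply_eq_comp]
  -- scaling
  set c : ℝ := (‖S0‖ + 1)⁻¹ with hc
  have hc0 : 0 < c := by positivity
  refine ⟨((c : ℝ) : 𝕜) • S0, e, g, ?_, ?_, ?_, ?_⟩
  · rw [norm_smul, RCLike.norm_ofReal, abs_of_pos hc0, hc, inv_mul_le_iff₀ (by positivity)]
    linarith
  · intro h
    rw [h] at hg
    simp at hg
  · intro z
    rw [smul_apply, map_smul, hgS0, smul_zero]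
  · -- cyclicity
    unfold Cyc
    set W := Submodule.span 𝕜 (Set.range fun n : ℕ => ((((c : ℝ) : 𝕜) • S0) ^ n) e) with hW
    have hW' : ∀ n : ℕ, (S0 ^ n) e ∈ W := by
      intro n
      have h1 : ((((c : ℝ) : 𝕜) • S0) ^ n) e ∈ W := Submodule.subset_span ⟨n, rfl⟩
      rw [smul_pow, smul_apply] at h1
      have h4 : (((c : ℝ) : 𝕜)) ^ n ≠ 0 := pow_ne_zero _ (by exact_mod_cast hc0.ne')
      exact (Submodule.smul_mem_iff W h4).1 h1
    have heW : e ∈ W := by simpa using hW' 0
    have hKW : ∀ k : K, (k : X) ∈ W.topologicalClosure := by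
      intro k
      have h1 : Submodule.span 𝕜 (Set.range fun n : ℕ => (A ^ n) y) ≤ W.comap K.subtype := by
        rw [Submodule.span_le]
        rintro _ ⟨n, rfl⟩
        change (((A ^ n) y : K) : X) ∈ W
        rw [← hpow]
        exact hW' _
      have h2 := hAy k
      have h3 : Set.MapsTo (fun k : K => (k : X))
          (Submodule.span 𝕜 (Set.range fun n : ℕ => (A ^ n) y) : Set K) (W : Set X) := by
        intro z hz
        exact h1 hz
      exact map_mem_closure continuous_subtype_val h2 h3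
    intro z
    have hz : z = (P z : X) + g z • e := by simp [hP]
    rw [← Submodule.topologicalClosure_coe, SetLike.mem_coe, hz]
    exact Submodule.add_mem _ (hKW _) (Submodule.smul_mem _ _ (Submodule.le_topologicalClosure W heW))

end Pool.Agent.Helper324_CC
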