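import Mathlib
import Pool.Agent.Helper324_CC.Gen

set_option autoImplicit false

/-!
# Convex-cyclic vectors of `-(100 + S)`, `S` a contraction of a real normed space
-/

open Filter Topology Polynomial ContinuousLinearMap

namespace Pool.Agent.Helper324_CC

/-- positivity preserving step on sequences -/
def BB (h : ℕ → ℝ) : ℕ → ℝ := fun n => h (n + 1) + 100 * h n

lemma BB_nonneg (h : ℕ → ℝ) (hh : ∀ n, 0 ≤ h n) (m : ℕ) : ∀ n, 0 ≤ (BB^[m] h) n := by
  induction m generalizing h with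
  | zero => exact hh
  | succ m ih =>
    rw [Function.iterate_succ_apply]
    apply ih
    intro n
    have := hh n
    have := hh (n + 1)
    simp only [BB]
    positivity

lemma BB_lower (h : ℕ → ℝ) (hh : ∀ n, 0 ≤ h n) (m : ℕ) : ∀ n, 100 ^ m * h n ≤ (BB^[m] h) n ∧
    (m : ℝ) * 100 ^ m * h (n + 1) ≤ 100 * (BB^[m] h) n := by
  induction m with
  | zero =>
    intro n
    simp only [pow_zero, Function.iterate_zero, id]
    have := hh n
    constructor
    · linarith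
    · push_cast; linarith
  | succ m ih =>
    intro n
    rw [Function.iterate_succ_apply']
    simp only [BB]
    obtain ⟨h1, h2⟩ := ih n
    obtain ⟨h3, h4⟩ := ih (n + 1)
    have h5 := BB_nonneg h hh m (n + 1)
    constructor
    · rw [pow_succ]; nlinarith
    · push_cast
      have e : ((m : ℝ) + 1) * 100 ^ (m + 1) * h (n + 1) = 100 * ((m : ℝ) * 100 ^ m * h (n + 1)) + 100 * (100 ^ m * h (n + 1)) := by
        rw [pow_succ]; ring
      rw [e]
      linarith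

lemma BB_iter (h : ℕ → ℝ) (hh : ∀ n, 0 ≤ h n) (j : ℕ) : ∀ n,
    ((100 : ℝ) ^ 100) ^ j * h (n + j) ≤ (BB^[100 * j] h) n := by
  induction j with
  | zero => intro n; simp
  | succ j ih =>
    intro n
    have e : 100 * (j + 1) = 100 + 100 * j := by ring
    rw [e, Function.iterate_add_apply]
    have h1 := (BB_lower (BB^[100 * j] h) (BB_nonneg h hh _) 100 n).2
    have h2 := ih (n + 1)
    have e2 : n + 1 + j = n + (j + 1) := by ring
    rw [e2] at h2
    have h3 : (100 : ℝ) ^ 100 * (BB^[100 * j] h) (n + 1) ≤ (BB^[100] (BB^[100 * j] h)) n := by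
      have : ((100 : ℕ) : ℝ) = 100 := by norm_num
      rw [this, mul_assoc] at h1
      linarith
    refine le_trans ?_ h3
    rw [pow_succ, mul_comm (((100 : ℝ) ^ 100) ^ j), mul_assoc]
    exact mul_le_mul_of_nonneg_left h2 (by positivity)

lemma growthB (h : ℕ → ℝ) (hh : ∀ n, 0 ≤ h n) (D : ℝ)
    (hD : ∀ m, (BB^[m] h) 0 ≤ D * 101 ^ m) (j : ℕ) : h j ≤ D * 3 ^ j := by
  have hD0 : 0 ≤ D := by
    have h1 := hD 0
    have h2 := hh 0
    simp only [Function.iterate_zero, id, pow_zero, mul_one] at h1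
    linarith
  have h1 := (BB_iter h hh j 0).trans (hD (100 * j))
  rw [zero_add, pow_mul] at h1
  have h2 : ((101 : ℝ) ^ 100) ^ j ≤ ((100 : ℝ) ^ 100) ^ j * 3 ^ j := by
    rw [← mul_pow]
    exact pow_le_pow_left₀ (by positivity) (by norm_num) j
  have h3 : (0 : ℝ) < ((100 : ℝ) ^ 100) ^ j := by positivity
  have h4 : ((100 : ℝ) ^ 100) ^ j * h j ≤ ((100 : ℝ) ^ 100) ^ j * (D * 3 ^ j) := by
    calc ((100 : ℝ) ^ 100) ^ j * h j ≤ D * ((101 : ℝ) ^ 100) ^ j := h1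
      _ ≤ D * (((100 : ℝ) ^ 100) ^ j * 3 ^ j) := mul_le_mul_of_nonneg_left h2 hD0
      _ = _ := by ring
  exact le_of_mul_le_mul_left h4 h3

/-- coefficientwise majorization -/
def Maj (q : ℝ[X]) (P : ℝ[X]) : Prop := ∀ j, |q.coeff j| ≤ P.coeff j

lemma Maj.add {p q : ℝ[X]} {P Q : ℝ[X]} (hp : Maj p P) (hq : Maj q Q) : Maj (p + q) (P + Q) := by
  intro j
  rw [coeff_add, coeff_add]
  exact (abs_add_le _ _).trans (add_le_add (hp j) (hq j))

lemma Maj.mul {p q : ℝ[X]} {P Q : ℝ[X]} (hp : Maj p P) (hq : Maj q Q) : Maj (p * q) (P * Q) := by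
  intro j
  rw [coeff_mul, coeff_mul]
  refine (Finset.abs_sum_le_sum_abs _ _).trans (Finset.sum_le_sum (fun x _ => ?_))
  rw [abs_mul]
  exact mul_le_mul (hp _) (hq _) (abs_nonneg _) ((abs_nonneg _).trans (hp _))

lemma Maj.C {c : ℝ} {r : ℝ} (h : |c| ≤ r) : Maj (C c) (C r) := by
  intro j
  rw [coeff_C, coeff_C]
  split_ifs
  · exact h
  · simp

lemma Maj.Xpow (k : ℕ) : Maj (X ^ k) (X ^ k) := by
  intro j
  rw [coeff_X_pow]
  split_ifs <;> simp

lemma Maj.pow {p : ℝ[X]} {P : ℝ[X]} (hp : Maj p P) (k : ℕ) : Maj (p ^ k) (P ^ k) := by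
  induction k with
  | zero =>
    rw [pow_zero, pow_zero]
    have := Maj.Xpow 0
    simpa using this
  | succ k ih => rw [pow_succ, pow_succ]; exact ih.mul hp

noncomputable def ee : ℕ → ℝ[X]
  | 0 => C (-1 / 100 : ℝ) * X ^ 1
  | k + 1 => C 3 * ee k ^ 2 + C (-2) * ee k ^ 3

noncomputable def PP : ℕ → ℝ[X]
  | 0 => C (1 / 100 : ℝ) * X ^ 1
  | k + 1 => C 3 * PP k ^ 2 + C 2 * PP k ^ 3

lemma ee_maj (k : ℕ) : Maj (ee k) (PP k) := by
  induction k with
  | zero =>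
    refine Maj.mul (Maj.C ?_) (Maj.Xpow 1)
    norm_num [abs_div]
  | succ k ih =>
    refine Maj.add (Maj.mul (Maj.C ?_) (ih.pow 2)) (Maj.mul (Maj.C ?_) (ih.pow 3))
    · norm_num
    · norm_num

noncomputable def xx : ℕ → ℝ := fun k => (1 / 5) * (17 / 25) ^ k

lemma xx_pos (k : ℕ) : 0 < xx k := by unfold xx; positivity
lemma xx_le (k : ℕ) : xx k ≤ 1 / 5 := by
  unfold xx
  have : (17 / 25 : ℝ) ^ k ≤ 1 := pow_le_one₀ (by norm_num) (by norm_num)
  linarith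
lemma xx_succ (k : ℕ) : xx (k + 1) = 17 / 25 * xx k := by unfold xx; rw [pow_succ]; ring

lemma xx_step (k : ℕ) (y : ℝ) (hy0 : 0 ≤ y) (hy : y ≤ xx k) : y ^ 2 * (3 + 2 * y) ≤ xx (k + 1) := by
  rw [xx_succ]
  have h1 := xx_le k
  have h2 : y ≤ 1 / 5 := hy.trans h1
  have h3 : y * (3 + 2 * y) ≤ 17 / 25 := by nlinarith
  calc y ^ 2 * (3 + 2 * y) = (y * (3 + 2 * y)) * y := by ring
    _ ≤ (17 / 25) * y := mul_le_mul_of_nonneg_right h3 hy0
    _ ≤ _ := mul_le_mul_of_nonneg_left hy (by norm_num)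

lemma xx_tendsto : Tendsto xx atTop (𝓝 0) := by
  have := (tendsto_pow_atTop_nhds_zero_of_lt_one (r := (17 / 25 : ℝ)) (by norm_num) (by norm_num)).const_mul (1 / 5)
  rw [mul_zero] at this
  exact this

lemma PP_nonneg (k : ℕ) : 0 ≤ (PP k).eval 3 := by
  induction k with
  | zero => simp only [PP, eval_mul, eval_pow, eval_C, eval_X]; norm_num
  | succ k ih => simp only [PP, eval_mul, eval_add, eval_pow, eval_C]; positivity

lemma PP_le (k : ℕ) : (PP k).eval 3 ≤ xx k := by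
  induction k with
  | zero => simp only [PP, eval_mul, eval_pow, eval_C, eval_X, xx]; norm_num
  | succ k ih =>
    have := xx_step k _ (PP_nonneg k) ih
    simp only [PP, eval_mul, eval_add, eval_pow, eval_C]
    refine le_trans (le_of_eq ?_) this
    ring

lemma iter_small {R : Type*} [NormedRing R] [NormOneClass R] (k : ℕ) (E : R) (h : ‖E‖ ≤ xx k) :
    ‖3 * E ^ 2 - 2 * E ^ 3‖ ≤ xx (k + 1) := by
  refine le_trans ?_ (xx_step k _ (norm_nonneg E) h)
  have h3 : ‖(3 : R)‖ ≤ 3 := by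
    have := Nat.norm_cast_le (α := R) 3
    simpa using this
  have h2 : ‖(2 : R)‖ ≤ 2 := by
    have := Nat.norm_cast_le (α := R) 2
    simpa using this
  have e1 : ‖E ^ 2‖ ≤ ‖E‖ ^ 2 := norm_pow_le E 2
  have e2 : ‖E ^ 3‖ ≤ ‖E‖ ^ 3 := norm_pow_le E 3
  calc ‖3 * E ^ 2 - 2 * E ^ 3‖ ≤ ‖3 * E ^ 2‖ + ‖2 * E ^ 3‖ := norm_sub_le _ _
    _ ≤ 3 * ‖E‖ ^ 2 + 2 * ‖E‖ ^ 3 := add_le_add
        ((norm_mul_le _ _).trans (mul_le_mul h3 e1 (norm_nonneg _) (by norm_num)))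
        ((norm_mul_le _ _).trans (mul_le_mul h2 e2 (norm_nonneg _) (by norm_num)))
    _ = _ := by ring

section
variable {H : Type*} [NormedAddCommGroup H] [NormedSpace ℝ H]

/-- The operator. -/
noncomputable def TR (S : H →L[ℝ] H) : H →L[ℝ] H := -((100 : ℝ) • (1 : H →L[ℝ] H) + S)

variable {S : H →L[ℝ] H}

lemma TR_norm (hS : ‖S‖ ≤ 1) : ‖TR S‖ ≤ 101 := by
  unfold TR
  rw [norm_neg]
  refine (norm_add_le _ _).trans ?_
  have h1 : ‖(100 : ℝ) • (1 : H →L[ℝ] H)‖ ≤ 100 := by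
    rw [norm_smul]
    have : ‖(1 : H →L[ℝ] H)‖ ≤ 1 := norm_id_le
    have h2 : ‖(100 : ℝ)‖ = 100 := by norm_num
    rw [h2]
    linarith
  linarith

lemma ee_norm [Nontrivial H] (hS : ‖S‖ ≤ 1) (k : ℕ) : ‖1 - aeval (TR S) (ee k)‖ ≤ xx k := by
  induction k with
  | zero =>
    have e : 1 - aeval (TR S) (ee 0) = (-1 / 100 : ℝ) • S := by
      simp only [ee, map_mul, aeval_C, aeval_X, Algebra.algebraMap_eq_smul_one, pow_one, smul_mul_assoc, one_mul]
      unfold TR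
      match_scalars
      · ring
      · ring
    rw [e, norm_smul]
    have h6 : ‖(-1 / 100 : ℝ)‖ = 1 / 100 := by norm_num
    rw [h6]
    unfold xx
    linarith
  | succ k ih =>
    have h := iter_small k _ ih
    have e : 1 - aeval (TR S) (ee (k + 1)) = 3 * (1 - aeval (TR S) (ee k)) ^ 2 - 2 * (1 - aeval (TR S) (ee k)) ^ 3 := by
      simp only [ee, map_mul, map_add, map_pow, aeval_C]
      have h3 : (algebraMap ℝ (H →L[ℝ] H)) 3 = 3 := map_ofNat _ 3
      have h2 : (algebraMap ℝ (H →L[ℝ] H)) (-2) = -2 := by rw [map_neg, map_ofNat]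
      rw [h3, h2]
      generalize (aeval (TR S)) (ee k) = E
      noncomm_ring
    rw [e]
    exact h

lemma BB_link (T : H →L[ℝ] H) (φ : H →L[ℝ] ℝ) (m : ℕ) : ∀ (M : ℝ) (z : H) (n : ℕ),
    (BB^[m] (fun n => M - φ ((T ^ n) z))) n =
      M * 101 ^ m - φ ((T ^ n) (((T + (100 : ℝ) • (1 : H →L[ℝ] H)) ^ m) z)) := by
  induction m with
  | zero => intro M z n; simp
  | succ m ih =>
    intro M z n
    rw [Function.iterate_succ_apply]
    have e : BB (fun n => M - φ ((T ^ n) z)) =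
        fun n => (101 * M) - φ ((T ^ n) ((T + (100 : ℝ) • (1 : H →L[ℝ] H)) z)) := by
      funext n
      simp only [BB]
      have e1 : (T ^ n) ((T + (100 : ℝ) • (1 : H →L[ℝ] H)) z) = (T ^ (n + 1)) z + (100 : ℝ) • (T ^ n) z := by
        rw [add_apply, map_add, smul_apply, map_smul, pow_succ, mul_apply_eq_comp, one_apply_eq_self]
      rw [e1, map_add, map_smul, smul_eq_mul]
      ring
    rw [e, ih]
    rw [← mul_apply_eq_comp, ← mul_apply_eq_comp, ← mul_apply_eq_comp]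
    rw [mul_assoc (T ^ n), ← pow_succ, pow_succ (101 : ℝ)]
    rw [mul_apply_eq_comp]
    ring

lemma a_growth (hS : ‖S‖ ≤ 1) (φ : H →L[ℝ] ℝ) (z : H) (M : ℝ)
    (h : ∀ n : ℕ, φ ((TR S ^ n) z) ≤ M) :
    ∃ C : ℝ, 0 ≤ C ∧ ∀ n : ℕ, |φ ((TR S ^ n) z)| ≤ C * 3 ^ n := by
  set M' : ℝ := max M 0 with hM'
  have hM0 : 0 ≤ M' := le_max_right _ _
  have h' : ∀ n : ℕ, φ ((TR S ^ n) z) ≤ M' := fun n => (h n).trans (le_max_left _ _)
  set D : ℝ := M' + ‖φ‖ * ‖z‖ with hD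
  have hD0 : 0 ≤ D := by positivity
  have hQ : TR S + (100 : ℝ) • (1 : H →L[ℝ] H) = -S := by
    unfold TR
    abel
  have hQpow : ∀ m, ‖(TR S + (100 : ℝ) • (1 : H →L[ℝ] H)) ^ m‖ ≤ 1 := by
    intro n
    rw [hQ]
    rcases Nat.eq_zero_or_pos n with h0 | h0
    · subst h0; rw [pow_zero]; exact norm_id_le
    · refine (norm_pow_le' _ h0).trans (pow_le_one₀ (norm_nonneg _) ?_)
      rw [norm_neg]; exact hS
  have hb : ∀ m, (BB^[m] (fun n => M' - φ ((TR S ^ n) z))) 0 ≤ D * 101 ^ m := by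
    intro m
    rw [BB_link, pow_zero, one_apply_eq_self]
    have h1 : |φ (((TR S + (100 : ℝ) • (1 : H →L[ℝ] H)) ^ m) z)| ≤ ‖φ‖ * ‖z‖ := by
      rw [← Real.norm_eq_abs]
      refine (φ.le_opNorm _).trans ?_
      refine mul_le_mul_of_nonneg_left ?_ (norm_nonneg _)
      refine (le_opNorm _ _).trans ?_
      exact mul_le_of_le_one_left (norm_nonneg _) (hQpow m)
    have h2 := (abs_le.1 h1).1
    have h3 : (1 : ℝ) ≤ 101 ^ m := one_le_pow₀ (by norm_num)
    have h4 : ‖φ‖ * ‖z‖ ≤ ‖φ‖ * ‖z‖ * 101 ^ m := le_mul_of_one_le_right (by positivity) h3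
    rw [hD, add_mul]
    linarith
  have hnn : ∀ n, 0 ≤ (fun n => M' - φ ((TR S ^ n) z)) n := by
    intro n
    have := h' n
    simp only
    linarith
  have hg := growthB _ hnn D hb
  refine ⟨M' + D, by positivity, fun n => ?_⟩
  have h1 : (1 : ℝ) ≤ 3 ^ n := one_le_pow₀ (by norm_num)
  rw [abs_le]
  constructor
  · have := hg n
    have h2 : 0 ≤ M' * 3 ^ n := by positivity
    rw [add_mul]
    linarith
  · have := h' n
    have h2 : M' ≤ M' * 3 ^ n := le_mul_of_one_le_right hM0 h1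
    have h3 : 0 ≤ D * 3 ^ n := by positivity
    rw [add_mul]
    linarith

lemma poly_bound (T : H →L[ℝ] H) (φ : H →L[ℝ] ℝ) (z : H) (C : ℝ)
    (h : ∀ n : ℕ, |φ ((T ^ n) z)| ≤ C * 3 ^ n) (q : ℝ[X]) (P : ℝ[X]) (hq : Maj q P) :
    |φ (aeval T q z)| ≤ C * P.eval 3 := by
  set N : ℕ := max q.natDegree P.natDegree + 1 with hN
  have e1 : φ (aeval T q z) = ∑ i ∈ Finset.range N, q.coeff i * φ ((T ^ i) z) := by
    rw [aeval_eq_sum_range' (n := N) (by omega), sum_apply, map_sum]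
    simp
  have e3 : P.eval 3 = ∑ i ∈ Finset.range N, P.coeff i * 3 ^ i :=
    eval_eq_sum_range' (by omega) _
  rw [e1, e3, Finset.mul_sum]
  refine (Finset.abs_sum_le_sum_abs _ _).trans (Finset.sum_le_sum (fun i _ => ?_))
  rw [abs_mul]
  have h3 := hq i
  have h4 := h i
  have h5 : 0 ≤ P.coeff i := (abs_nonneg _).trans h3
  calc |q.coeff i| * |φ ((T ^ i) z)| ≤ P.coeff i * (C * 3 ^ i) :=
        mul_le_mul h3 h4 (by positivity) h5
    _ = _ := by ring

lemma key [Nontrivial H] (hS : ‖S‖ ≤ 1) (φ : H →L[ℝ] ℝ) (z : H) (M : ℝ)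
    (h : ∀ n : ℕ, φ ((TR S ^ n) z) ≤ M) (j : ℕ) : φ ((TR S ^ j) z) = 0 := by
  obtain ⟨C, hC0, hC⟩ := a_growth hS φ z M h
  have hTpow : ∀ n, ‖TR S ^ n‖ ≤ 101 ^ n := by
    intro n
    rcases Nat.eq_zero_or_pos n with h0 | h0
    · subst h0; rw [pow_zero, pow_zero]; exact norm_id_le
    · exact (norm_pow_le' _ h0).trans (pow_le_pow_left₀ (norm_nonneg _) (TR_norm hS) n)
  have hbd : ∀ k, ‖φ ((TR S ^ j) z)‖ ≤ (‖φ‖ * (101 ^ j * ‖z‖) + C * 3 ^ j) * xx k := by
    intro k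
    have hx0 := (xx_pos k).le
    have h1 := poly_bound (TR S) φ z C hC (X ^ j * ee k) (X ^ j * PP k) (Maj.mul (Maj.Xpow j) (ee_maj k))
    have hgen : ∀ A : H →L[ℝ] H, ‖A‖ ≤ xx k → ‖φ ((TR S ^ j) (A z))‖ ≤ (‖φ‖ * (101 ^ j * ‖z‖)) * xx k := by
      intro A hA
      refine (φ.le_opNorm _).trans ?_
      rw [mul_assoc]
      refine mul_le_mul_of_nonneg_left ?_ (norm_nonneg _)
      refine ((TR S ^ j).le_opNorm _).trans ?_
      have h3 : ‖A z‖ ≤ xx k * ‖z‖ := (A.le_opNorm z).trans (mul_le_mul_of_nonneg_right hA (norm_nonneg _))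
      calc ‖TR S ^ j‖ * ‖A z‖ ≤ 101 ^ j * (xx k * ‖z‖) := mul_le_mul (hTpow j) h3 (norm_nonneg _) (by positivity)
        _ = _ := by ring
    have h2 := hgen _ (ee_norm hS k)
    have e1 : aeval (TR S) (X ^ j * ee k) z = (TR S ^ j) (aeval (TR S) (ee k) z) := by
      rw [map_mul, map_pow, aeval_X, mul_apply_eq_comp]
    rw [e1] at h1
    have e3 : (X ^ j * PP k).eval (3 : ℝ) ≤ 3 ^ j * xx k := by
      rw [eval_mul, eval_pow, eval_X]
      exact mul_le_mul_of_nonneg_left (PP_le k) (by positivity)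
    have e4 : φ ((TR S ^ j) z) = φ ((TR S ^ j) ((1 - aeval (TR S) (ee k)) z)) +
        φ ((TR S ^ j) (aeval (TR S) (ee k) z)) := by
      rw [sub_apply, one_apply_eq_self, map_sub, map_sub]; ring
    rw [e4]
    have h5 : ‖φ ((TR S ^ j) (aeval (TR S) (ee k) z))‖ ≤ C * (3 ^ j * xx k) := by
      rw [Real.norm_eq_abs]
      exact h1.trans (mul_le_mul_of_nonneg_left e3 hC0)
    refine (norm_add_le _ _).trans ((add_le_add h2 h5).trans (le_of_eq ?_))
    ring
  have ht : Tendsto (fun k => (‖φ‖ * (101 ^ j * ‖z‖) + C * 3 ^ j) * xx k) atTop (𝓝 0) := by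
    have := xx_tendsto.const_mul (‖φ‖ * (101 ^ j * ‖z‖) + C * 3 ^ j)
    rw [mul_zero] at this
    exact this
  have h0 : ‖φ ((TR S ^ j) z)‖ ≤ 0 := ge_of_tendsto' ht hbd
  exact norm_le_zero_iff.1 h0

lemma phi_zero (x : H) (hx : Cyc S x) (φ : H →L[ℝ] ℝ) (h : ∀ j : ℕ, φ ((TR S ^ j) x) = 0) :
    φ = 0 := by
  have h1 : ∀ q : ℝ[X], φ (aeval (TR S) q x) = 0 := by
    intro q
    rw [aeval_eq_sum_range, sum_apply, map_sum]
    refine Finset.sum_eq_zero (fun i _ => ?_)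
    rw [smul_apply, map_smul, h, smul_zero]
  have h2 : ∀ j, φ ((S ^ j) x) = 0 := by
    intro j
    have := h1 ((-X - C (100 : ℝ)) ^ j)
    have e : aeval (TR S) ((-X - C (100 : ℝ)) ^ j) = S ^ j := by
      rw [map_pow, map_sub, map_neg, aeval_X, aeval_C, Algebra.algebraMap_eq_smul_one]
      congr 1
      unfold TR
      abel
    rw [e] at this
    exact this
  apply ContinuousLinearMap.ext_on hx
  rintro _ ⟨j, rfl⟩
  simp only [h2]
  rfl

/-- A cyclic vector of a contraction `S` of a real normed space is convex-cyclic for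
`-(100 + S)`. -/
theorem cc_of_cyc_real (hS : ‖S‖ ≤ 1) (x : H) (hx : Cyc S x) :
    Dense (convexHull ℝ (Set.range fun n : ℕ => (TR S ^ n) x)) := by
  rcases subsingleton_or_nontrivial H with hH | hH
  · intro y
    rw [Subsingleton.elim y x]
    exact subset_closure (subset_convexHull ℝ _ ⟨0, by simp⟩)
  by_contra hcon
  rw [dense_iff_closure_eq, ← ne_eq, Set.ne_univ_iff_exists_notMem] at hcon
  obtain ⟨y, hy⟩ := hcon
  obtain ⟨φ, u, h1, h2⟩ := geometric_hahn_banach_closed_point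
    (convex_convexHull ℝ (Set.range (fun n : ℕ => (TR S ^ n) x))).closure isClosed_closure hy
  have h3 : ∀ n : ℕ, φ ((TR S ^ n) x) ≤ u := by
    intro n
    exact (h1 _ (subset_closure (subset_convexHull ℝ _ ⟨n, rfl⟩))).le
  have h4 := phi_zero x hx φ (key hS φ x u h3)
  have h5 := h1 _ (subset_closure (subset_convexHull ℝ _ ⟨0, rfl⟩))
  rw [h4] at h2 h5
  simp at h2 h5
  linarith

end

end Pool.Agent.Helper324_CC
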